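import Mathlib
import Pool.Agent.W262.TW.Stm

/-! Project TW: final estimate for factors of even degree. -/

namespace Pool.Agent.W262.TW

open Finset Pool.Agent.W262.RK Polynomial

section K

variable {K : Type} [Fintype K] [DecidableEq K]

lemma ngs_subset (a : K → ℤ) (i : K) (p : ℕ) : ngs a i p ⊆ univ.erase i := by
  intro k hk
  unfold ngs at hk
  rw [mem_filter] at hk
  exact mem_erase.2 ⟨hk.2.1, mem_univ _⟩

lemma Th_subset (f : K → ℤ[X]) (i : K) (p : ℕ) : Th f i p ⊆ (univ.erase i).powerset := by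
  intro N hN
  unfold Th at hN
  rw [mem_image] at hN
  obtain ⟨θ, _, rfl⟩ := hN
  exact mem_powerset.2 (ngs_subset _ _ _)

lemma EE_prime {z : ℕ} {e : ℤ} (he : e ∈ EE z) : ∀ p : ℕ, p.Prime → (p : ℤ) ∣ e → p ≤ z := by
  intro p hp h
  have key : ∀ n ∈ (primorial z).divisors, (p : ℤ) ∣ (n : ℤ) → p ≤ z := by
    intro n hn h
    have h1 : p ∣ primorial z := (Int.natCast_dvd_natCast.1 h).trans (Nat.dvd_of_mem_divisors hn)
    unfold primorial at h1
    obtain ⟨q, hq, hpq⟩ := (hp.prime.dvd_finsetProd_iff _).1 h1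
    rw [mem_filter, mem_range] at hq
    rw [(Nat.prime_dvd_prime_iff_eq hp hq.2).1 hpq]
    omega
  unfold EE at he
  rw [mem_union, mem_image, mem_image] at he
  rcases he with ⟨n, hn, rfl⟩ | ⟨n, hn, rfl⟩
  · exact key n hn h
  · exact key n hn ((dvd_neg).1 h)

end K

/-- FIN3: the final estimate -/
def FIN3 : Prop := ∀ (K : Type) [Fintype K] [DecidableEq K] (f : K → ℤ[X]),
  (∀ k, Irreducible ((f k).map (Int.castRingHom ℚ))) → (∀ k, Even (f k).natDegree) →
  (∀ k l, k ≠ l → ¬ Associated ((f k).map (Int.castRingHom ℚ)) ((f l).map (Int.castRingHom ℚ))) →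
  ∃ δ : ℝ, 0 < δ ∧ ∃ C : ℝ, ∀ X : ℕ, 3 ≤ X →
    ({d : ℤ | d.natAbs ≤ X ∧ Squarefree d ∧ Sel f d}.ncard : ℝ) ≤
      C * X * (Real.log X) ^ (-δ)

lemma one_lt_log {X : ℕ} (hX : 3 ≤ X) : 1 < Real.log X := by
  rw [Real.lt_log_iff_exp_lt (by positivity)]
  have h1 : (3 : ℝ) ≤ X := by exact_mod_cast hX
  have := Real.exp_one_lt_d9
  linarith

theorem fin3 (h1 : ABS0) (h2 : ANT) (h3 : RED3) : FIN3 := by
  intro K _ _ f hirr heven hass
  have hdeg : ∀ k, 2 ≤ (f k).natDegree := by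
    intro k
    have e1 : ((f k).map (Int.castRingHom ℚ)).natDegree = (f k).natDegree :=
      natDegree_map_eq_of_injective (RingHom.injective_int (Int.castRingHom ℚ)) _
    have e2 : 0 < ((f k).map (Int.castRingHom ℚ)).natDegree := (hirr k).natDegree_pos
    obtain ⟨m, hm⟩ := heven k
    omega
  obtain ⟨z0, hz0⟩ := h3 K f hirr heven hass
  set z : ℕ := max z0 2 with hz
  choose η hη C1 hC1 using h2 K f hirr hdeg
  obtain ⟨η0, hη0, hη1, hη2⟩ : ∃ η0 : ℝ, 0 < η0 ∧ η0 ≤ 1 ∧ ∀ i, η0 ≤ η i := by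
    rcases isEmpty_or_nonempty K with hK | hK
    · exact ⟨1, one_pos, le_rfl, fun i => (hK.false i).elim⟩
    · obtain ⟨i0, hi0⟩ := Finite.exists_min η
      exact ⟨min (η i0) 1, lt_min (hη i0) one_pos, min_le_right _ _,
        fun i => (min_le_left _ _).trans (hi0 i)⟩
  obtain ⟨C, hC⟩ := h1 K (η0 / 2) (by positivity)
  set C2 : ℝ := ∑ i, |C1 i| with hC2
  have hC20 : 0 ≤ C2 := sum_nonneg fun _ _ => abs_nonneg _
  refine ⟨η0 / 2, by positivity, (EE z).card * ((Fintype.piFinset (fun _ : K => EE z)).card *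
    (|C| * Real.exp C2)), fun X hX => ?_⟩
  have hlog := one_lt_log hX
  have hlog0 : 0 < Real.log X := by linarith
  have hll : 0 < Real.log (Real.log X) := Real.log_pos hlog
  set w : ℝ := (1 - η0) * Real.log (Real.log X) + C2 with hw
  have hw0 : 0 ≤ w := by
    have : 0 ≤ (1 - η0) * Real.log (Real.log X) := mul_nonneg (by linarith) hll.le
    linarith
  have hX0 : (0 : ℝ) < X := by exact_mod_cast (by omega : 0 < X)
  have hexp : Real.exp w = (Real.log X) ^ (1 - η0) * Real.exp C2 := by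
    rw [hw, Real.exp_add, Real.rpow_def_of_pos hlog0, mul_comm (1 - η0)]
  have hcnt : ∀ κ ∈ Fintype.piFinset (fun _ : K => EE z),
      (cnt z X 0 κ (Th f) : ℝ) ≤ |C| * Real.exp C2 * (X * (Real.log X) ^ (-(η0 / 2))) := by
    intro κ hκ
    rw [Fintype.mem_piFinset] at hκ
    have h := hC z X κ (Th f) w (le_max_right _ _) hX hw0 (fun k => EE_prime (hκ k))
      (Th_subset f) (fun i => by
        refine (hC1 i z X hX).trans ?_
        rw [hw]
        have e1 : C1 i ≤ C2 := (le_abs_self _).trans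
          (single_le_sum (f := fun i => |C1 i|) (fun _ _ => abs_nonneg _) (mem_univ i))
        have e2 : (1 - η i) * Real.log (Real.log X) ≤ (1 - η0) * Real.log (Real.log X) :=
          mul_le_mul_of_nonneg_right (by linarith [hη2 i]) hll.le
        linarith)
    refine h.trans ?_
    rw [hexp]
    have e3 : (Real.log X) ^ (η0 / 2 - 1) * (Real.log X) ^ (1 - η0) =
        (Real.log X) ^ (-(η0 / 2)) := by
      rw [← Real.rpow_add hlog0]
      congr 1
      ring
    calc C * X * (Real.log X) ^ (η0 / 2 - 1) * ((Real.log X) ^ (1 - η0) * Real.exp C2)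
        = C * (Real.exp C2 * (X * ((Real.log X) ^ (η0 / 2 - 1) * (Real.log X) ^ (1 - η0)))) := by
          ring
      _ ≤ |C| * (Real.exp C2 * (X * ((Real.log X) ^ (η0 / 2 - 1) * (Real.log X) ^ (1 - η0)))) := by
          apply mul_le_mul_of_nonneg_right (le_abs_self _)
          positivity
      _ = _ := by rw [e3]; ring
  have h := hz0 z (le_max_left _ _) X
  calc ({d : ℤ | d.natAbs ≤ X ∧ Squarefree d ∧ Sel f d}.ncard : ℝ)
      ≤ ((EE z).card * ∑ κ ∈ Fintype.piFinset (fun _ : K => EE z), cnt z X 0 κ (Th f) : ℕ) := by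
        exact_mod_cast h
    _ = (EE z).card * ∑ κ ∈ Fintype.piFinset (fun _ : K => EE z), (cnt z X 0 κ (Th f) : ℝ) := by
        push_cast; rfl
    _ ≤ (EE z).card * ∑ κ ∈ Fintype.piFinset (fun _ : K => EE z),
        (|C| * Real.exp C2 * (X * (Real.log X) ^ (-(η0 / 2)))) := by
        apply mul_le_mul_of_nonneg_left (sum_le_sum hcnt) (Nat.cast_nonneg _)
    _ = _ := by
        rw [sum_const, nsmul_eq_mul]
        ring

end Pool.Agent.W262.TW
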