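import Mathlib
import Pool.Agent.W262.TW.Stm

/-!
# Quadratic twists of hyperelliptic curves with rational branch points: definitions, statements
-/

namespace Pool.Agent.W262.TW

open Finset Pool.Agent.W262.RK

section K

variable {K : Type} [Fintype K] [DecidableEq K]

/-- the determinants -/
def cc (α β : K → ℤ) (i k : K) : ℤ := α i * β k - α k * β i

/-- for every `i` the numbers `s k * c i k` (`k ≠ i`) are not all in the same square class -/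
def NC (c : K → K → ℤ) (s : K → ℤ) : Prop :=
  ∀ i, ∃ k l, k ≠ i ∧ l ≠ i ∧ ¬ IsSquare (s k * s l * (c i k * c i l))

/-- the curve `d y² = ∏ k, (α k x + β k w)` has a point of nonconstant type -/
def BadS (α β : K → ℤ) (d : ℤ) : Prop := ∃ x w y : ℤ, IsCoprime x w ∧ y ≠ 0 ∧
  d * y ^ 2 = ∏ k, (α k * x + β k * w) ∧ NC (cc α β) (fun k => α k * x + β k * w)

/-- the two possible sign patterns -/
def Ths (c : K → K → ℤ) (i : K) (p : ℕ) : Finset (Finset K) :=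
  {ngs (c i) i p, (univ.erase i) \ ngs (c i) i p}

open Classical in
/-- the number of the tuples -/
noncomputable def cntS (z Y : ℕ) (κ : K → ℤ) (c : K → K → ℤ) : ℕ :=
  ((Fintype.piFinset (fun _ : K => Icc 1 Y)).filter (fun D => (∀ i, Rg z (D i)) ∧
    (∀ i j, i ≠ j → (D i).Coprime (D j)) ∧ ∏ i, D i ≤ Y ∧
    (∀ i, ∀ p ∈ (D i).primeFactors, ngs (fun k => κ k * D k) i p ∈ Ths c i p) ∧
    NC c (fun k => κ k * D k))).card

/-- the sign patterns on `I` compatible with the small variables `u l`, `l ∉ I` -/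
def ThI (c : K → K → ℤ) (κ : K → ℤ) (u : K → ℕ) (I : Finset K) (i : {k // k ∈ I}) (p : ℕ) :
    Finset (Finset {k // k ∈ I}) :=
  ((Ths c i p).filter (fun N => ∀ l, l ∉ I → jacobiSym (κ l * u l) p =
    if l ∈ N then -1 else 1)).image (fun N => N.subtype (fun k => k ∈ I))

open Classical in
/-- the small variables -/
noncomputable def UU (z V : ℕ) (c : K → K → ℤ) (κ : K → ℤ) (I : Finset K) : Finset (K → ℕ) :=
  (Fintype.piFinset (fun k : K => if k ∈ I then {1} else Icc 1 V)).filter (fun u =>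
    (∀ k, Rg z (u k)) ∧ (∀ i, I = {i} → ∃ k l, k ≠ i ∧ l ≠ i ∧
      ¬ IsSquare (κ k * u k * (κ l * u l) * (c i k * c i l))))

end K

/-- UBQ: sums of real characters over primes, uniformly in the modulus -/
def UBQ : Prop := ∀ z : ℕ, 2 ≤ z → ∃ C : ℝ, ∀ q : ℤ, ¬ IsSquare q → ∀ y : ℕ,
  ∑ p ∈ PS z y, Jr q p / (p : ℝ) ≤ Real.log (Real.log (q.natAbs + 3)) + C

/-- REDS: reduction of the twists with a point of nonconstant type to tuples -/
def REDS : Prop := ∀ (K : Type) [Fintype K] [DecidableEq K] (α β : K → ℤ),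
  2 ≤ Fintype.card K → (∀ i k, i ≠ k → cc α β i k ≠ 0) → ∃ z0 : ℕ, ∀ z, z0 ≤ z → ∀ X : ℕ,
    {d : ℤ | d.natAbs ≤ X ∧ Squarefree d ∧ BadS α β d}.ncard ≤
      (EE z).card * ∑ κ ∈ Fintype.piFinset (fun _ : K => EE z), cntS z X κ (cc α β)

/-- REGS: small and large variables -/
def REGS : Prop := ∀ (K : Type) [Fintype K] [DecidableEq K] (z X V : ℕ) (κ : K → ℤ)
  (c : K → K → ℤ), 1 ≤ V → (∀ k, ∀ p : ℕ, p.Prime → (p : ℤ) ∣ κ k → p ≤ z) →
  cntS z X κ c ≤ V ^ Fintype.card K +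
    ∑ I ∈ univ.filter (fun I : Finset K => I.Nonempty), ∑ u ∈ UU z V c κ I,
      cnt z (X / ∏ k, u k) V (fun k : {k // k ∈ I} => κ k) (ThI c κ u I)

/-- PRS: the weights of the sign patterns -/
def PRS : Prop := ∀ (K : Type) [Fintype K] [DecidableEq K] (c : K → K → ℤ),
  5 ≤ Fintype.card K → (∀ i k, i ≠ k → c i k ≠ 0) →
  (∀ i k, i ≠ k → ∃ l l', l ≠ i ∧ l ≠ k ∧ l' ≠ i ∧ l' ≠ k ∧
    ¬ IsSquare (c i l * c i l' * (c k l * c k l'))) →
  ∃ z0 : ℕ, ∀ z, z0 ≤ z → ∃ C : ℝ, 0 ≤ C ∧ ∀ κ ∈ Fintype.piFinset (fun _ : K => EE z),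
  ∀ (Y V : ℕ) (I : Finset K), 3 ≤ Y → 1 ≤ V → I.Nonempty → ∀ u ∈ UU z V c κ I,
    ∑ i : {k // k ∈ I}, ∑ p ∈ PS z Y, ((ThI c κ u I i p).card : ℝ) / p ≤
      (3 / 4 * Real.log (Real.log Y) + C * (1 + Real.log (Real.log (V + 3)))) *
        2 ^ (Fintype.card {k // k ∈ I} - 1)

/-- FINS: the final estimate -/
def FINS : Prop := ∀ (K : Type) [Fintype K] [DecidableEq K] (α β : K → ℤ),
  5 ≤ Fintype.card K → (∀ i k, i ≠ k → cc α β i k ≠ 0) →
  (∀ i k, i ≠ k → ∃ l l', l ≠ i ∧ l ≠ k ∧ l' ≠ i ∧ l' ≠ k ∧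
    ¬ IsSquare (cc α β i l * cc α β i l' * (cc α β k l * cc α β k l'))) →
  ∃ C : ℝ, ∀ X : ℕ, 3 ≤ X →
    ({d : ℤ | d.natAbs ≤ X ∧ Squarefree d ∧ BadS α β d}.ncard : ℝ) ≤
      C * X * (Real.log X) ^ (-(1 / 5 : ℝ))

end Pool.Agent.W262.TW
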