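import Mathlib
import Pool.Agent.W262.TW.Fin3
import Pool.Agent.W405.TW.Blt
import Pool.Agent.W924.TW.LINK
import Pool.Agent.W397.TW.Triv
import Pool.Agent.W762.TW.Core
import Pool.Agent.W540.TW.Expa
import Pool.Agent.W563.TW.Comb
import Pool.Agent.W249.TW.Abs
import Pool.Agent.W338.TW.Ant
import Pool.Agent.W975.TW.Loc3
import Pool.Agent.W311.TW.Red3
import Pool.Agent.W578.TW.UBQ
import Pool.Agent.W554.TW.Prs
import Pool.Agent.W762.TW.Regs
import Pool.Agent.W500.TW.Reds
import Pool.Agent.W460.TW.Fins
import Pool.Agent.W37.RK.BL2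
import Pool.Agent.W505.RK.LS

/-! Project TW: the unconditional final estimates. -/

namespace Pool.Agent.W262.TW

theorem blt_all : BLT := W405.TW.blt (_root_.W37.RK.bl_of Pool.Agent.W505.RK.ls)

theorem core_all : CORE := W762.TW.core (W924.TW.link blt_all) W397.TW.triv

theorem abs0_all : ABS0 := W249.TW.abs0 core_all W540.TW.expa W563.TW.comb0

theorem abs1_all : ABS1 := W249.TW.abs1 core_all W540.TW.expa W563.TW.comb1

/-- the final estimate for factors of even degree -/
theorem fin3_all : FIN3 := fin3 abs0_all W338.TW.ant (W311.TW.red3 W975.TW.loc3)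

/-- the final estimate for rational branch points -/
theorem fins_all : FINS :=
  W460.TW.fins abs1_all W500.TW.reds W762.TW.regs (W554.TW.prs W578.TW.UBQ.ubq)

end Pool.Agent.W262.TW
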