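import Mathlib
import Pool.Agent.W262.TW.Stm

/-! Project TW: rational points give everywhere locally soluble coverings. -/

namespace Pool.Agent.W262.TW

open Finset Polynomial

lemma hom_map' {R S : Type*} [CommRing R] [CommRing S] (φ : R →+* S) (f : ℤ[X]) (x w : R) :
    hom f (φ x) (φ w) = φ (hom f x w) := by
  unfold hom
  rw [map_sum]
  refine sum_congr rfl fun i _ => ?_
  rw [map_mul, map_mul, map_pow, map_pow, map_intCast]

lemma hom_eq_zero_rat {f : ℤ[X]} (hf : Irreducible (f.map (Int.castRingHom ℚ)))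
    (hd : 2 ≤ f.natDegree) {x w : ℚ} (hxw : x ≠ 0 ∨ w ≠ 0) : hom f x w ≠ 0 := by
  intro h
  by_cases hw : w = 0
  · subst hw
    have hx : x ≠ 0 := by simpa using hxw
    have h1 : hom f x (0 : ℚ) = (f.leadingCoeff : ℚ) * x ^ f.natDegree := by
      unfold hom
      rw [sum_eq_single f.natDegree]
      · simp
      · intro i hi hne
        have : f.natDegree - i ≠ 0 := by
          rw [mem_range] at hi
          omega
        rw [zero_pow this, mul_zero]
      · intro h
        simp at h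
    rw [h1] at h
    have h2 : f ≠ 0 := by
      rintro rfl
      simp at hd
    have h3 : (f.leadingCoeff : ℚ) ≠ 0 := by
      exact_mod_cast leadingCoeff_ne_zero.2 h2
    exact (mul_ne_zero h3 (pow_ne_zero _ hx)) h
  · have h1 : hom f x w = w ^ f.natDegree * (f.map (Int.castRingHom ℚ)).eval (x / w) := by
      unfold hom
      have e1 : (f.map (Int.castRingHom ℚ)).natDegree = f.natDegree :=
        natDegree_map_eq_of_injective (RingHom.injective_int (Int.castRingHom ℚ)) _
      rw [eval_eq_sum_range, e1, mul_sum]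
      refine sum_congr rfl fun i hi => ?_
      rw [mem_range] at hi
      rw [coeff_map]
      have e2 : w ^ f.natDegree = w ^ i * w ^ (f.natDegree - i) := by
        rw [← pow_add]
        congr 1
        omega
      rw [e2, div_pow]
      have : w ^ i ≠ 0 := pow_ne_zero _ hw
      simp only [eq_intCast]
      field_simp
    rw [h1] at h
    have h2 : (f.map (Int.castRingHom ℚ)).eval (x / w) = 0 := by
      rcases mul_eq_zero.1 h with h | h
      · exact absurd h (pow_ne_zero _ hw)
      · exact h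
    have h3 : (f.map (Int.castRingHom ℚ)).degree = 1 :=
      degree_eq_one_of_irreducible_of_root hf h2
    have e1 : (f.map (Int.castRingHom ℚ)).natDegree = f.natDegree :=
      natDegree_map_eq_of_injective (RingHom.injective_int (Int.castRingHom ℚ)) _
    have h4 : (f.map (Int.castRingHom ℚ)).natDegree = 1 :=
      natDegree_eq_of_degree_eq_some (by rw [h3]; rfl)
    omega

/-- a rational point of the curve gives a covering with points everywhere -/
theorem sel_of_point {K : Type} [Fintype K] (f : K → ℤ[X])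
    (h1 : ∀ k, Irreducible ((f k).map (Int.castRingHom ℚ))) (h2 : ∀ k, 2 ≤ (f k).natDegree)
    {d : ℤ} (h : ∃ x w y : ℚ, (x ≠ 0 ∨ w ≠ 0) ∧ d * y ^ 2 = ∏ k, hom (f k) x w) : Sel f d := by
  obtain ⟨x, w, y, hxw, hy⟩ := h
  have hne : ∀ k, hom (f k) x w ≠ 0 := fun k => hom_eq_zero_rat (h1 k) (h2 k) hxw
  set r : K → ℚ := fun k => hom (f k) x w with hr
  set δ : K → ℤ := fun k => (r k).num * (r k).den with hδ
  have hδ0 : ∀ k, δ k ≠ 0 := fun k =>
    mul_ne_zero (Rat.num_ne_zero.2 (hne k)) (by exact_mod_cast (r k).den_ne_zero)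
  have hrδ : ∀ k, r k = δ k * (1 / (r k).den : ℚ) ^ 2 := by
    intro k
    have hd : ((r k).den : ℚ) ≠ 0 := by exact_mod_cast (r k).den_ne_zero
    have e := Rat.num_div_den (r k)
    rw [hδ]
    push_cast
    nth_rewrite 1 [← e]
    field_simp
  refine ⟨δ, hδ0, ?_, ?_, ?_⟩
  · rw [← Rat.isSquare_intCast_iff]
    refine ⟨d * y * ∏ k, ((r k).den : ℚ), ?_⟩
    have e1 : ∏ k, r k = (∏ k, (δ k : ℚ)) * (∏ k, (1 / (r k).den : ℚ)) ^ 2 := by
      rw [prod_congr rfl fun k _ => hrδ k, prod_mul_distrib, prod_pow]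
    have e2 : (∏ k, (1 / (r k).den : ℚ)) * ∏ k, ((r k).den : ℚ) = 1 := by
      rw [← prod_mul_distrib]
      refine prod_eq_one fun k _ => ?_
      have hd : ((r k).den : ℚ) ≠ 0 := by exact_mod_cast (r k).den_ne_zero
      field_simp
    push_cast
    have e3 : (d : ℚ) * y ^ 2 = ∏ k, r k := hy
    have e4 : (d * y * ∏ k, ((r k).den : ℚ)) * (d * y * ∏ k, ((r k).den : ℚ)) =
        d * (d * y ^ 2) * (∏ k, ((r k).den : ℚ)) ^ 2 := by ring
    rw [e4, e3, e1]
    calc (d : ℚ) * ∏ k, (δ k : ℚ) = d * (∏ k, (δ k : ℚ)) *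
          ((∏ k, (1 / (r k).den : ℚ)) * ∏ k, ((r k).den : ℚ)) ^ 2 := by rw [e2]; ring
      _ = _ := by ring
  · refine ⟨(x : ℝ), (w : ℝ), ?_, fun k => ⟨((1 / (r k).den : ℚ) : ℝ), ?_⟩⟩
    · rcases hxw with h | h
      · exact Or.inl (by exact_mod_cast h)
      · exact Or.inr (by exact_mod_cast h)
    · have e1 : hom (f k) (x : ℝ) (w : ℝ) = ((r k : ℚ) : ℝ) :=
        hom_map' (algebraMap ℚ ℝ) (f k) x w
      have e2 := congrArg (algebraMap ℚ ℝ) (hrδ k)
      rw [map_mul, map_pow, map_intCast] at e2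
      rw [e1]
      exact e2
  · intro p _
    refine ⟨(x : ℚ_[p]), (w : ℚ_[p]), ?_, fun k => ⟨((1 / (r k).den : ℚ) : ℚ_[p]), ?_⟩⟩
    · rcases hxw with h | h
      · exact Or.inl (by exact_mod_cast h)
      · exact Or.inr (by exact_mod_cast h)
    · have e1 : hom (f k) (x : ℚ_[p]) (w : ℚ_[p]) = ((r k : ℚ) : ℚ_[p]) :=
        hom_map' (algebraMap ℚ ℚ_[p]) (f k) x w
      have e2 := congrArg (algebraMap ℚ ℚ_[p]) (hrδ k)
      rw [map_mul, map_pow, map_intCast] at e2
      rw [e1]
      exact e2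

end Pool.Agent.W262.TW
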