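import Mathlib
import Pool.Agent.W262.TW.Rat3

/-! Project TW: an intersective polynomial. -/

namespace Pool.Agent.W262.TW

open Finset Polynomial

/-- `X² - 13`, `(X - 1)² - 17`, `(X - 2)² - 221` -/
noncomputable def ex : Fin 3 → ℤ[X] := ![X ^ 2 - 13, (X - 1) ^ 2 - 17, (X - 2) ^ 2 - 221]

/-- the centre -/
def exa : Fin 3 → ℤ := ![0, 1, 2]

/-- the discriminant -/
def exn : Fin 3 → ℤ := ![13, 17, 221]

lemma ex_eq (k : Fin 3) : ex k = (X - C (exa k)) ^ 2 - C (exn k) := by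
  fin_cases k
  · simp [ex, exa, exn]
  · simp [ex, exa, exn]
  · simp [ex, exa, exn]

lemma ex_eq' (k : Fin 3) : ex k =
    C 1 * X ^ 2 + C (-2 * exa k) * X + C (exa k ^ 2 - exn k) := by
  rw [ex_eq]
  simp only [C_mul, C_sub, C_pow, map_neg, C_1, C_ofNat]
  ring

lemma quad_coeff (a b c : ℤ) : (C a * X ^ 2 + C b * X + C c).coeff 0 = c ∧
    (C a * X ^ 2 + C b * X + C c).coeff 1 = b ∧ (C a * X ^ 2 + C b * X + C c).coeff 2 = a := by
  refine ⟨?_, ?_, ?_⟩
  · simp only [coeff_add, coeff_C_mul, coeff_X_pow, coeff_X, coeff_C]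
    norm_num
  · simp only [coeff_add, coeff_C_mul, coeff_X_pow, coeff_X, coeff_C]
    norm_num
  · simp only [coeff_add, coeff_C_mul, coeff_X_pow, coeff_X, coeff_C]
    norm_num

lemma ex_coeff (k : Fin 3) : (ex k).coeff 0 = exa k ^ 2 - exn k ∧ (ex k).coeff 1 = -2 * exa k ∧
    (ex k).coeff 2 = 1 := by
  rw [ex_eq']
  exact quad_coeff _ _ _

lemma ex_natDegree (k : Fin 3) : (ex k).natDegree = 2 := by
  rw [ex_eq']
  exact natDegree_quadratic one_ne_zero

lemma ex_map (k : Fin 3) : (ex k).map (Int.castRingHom ℚ) =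
    (X - C (exa k : ℚ)) ^ 2 - C (exn k : ℚ) := by
  rw [ex_eq]
  simp

lemma ex_natDegree' (k : Fin 3) : ((ex k).map (Int.castRingHom ℚ)).natDegree = 2 := by
  rw [natDegree_map_eq_of_injective (RingHom.injective_int (Int.castRingHom ℚ)), ex_natDegree]

lemma nsq {n m : ℤ} (h1 : m ^ 2 < n) (h2 : n < (m + 1) ^ 2) (hm : 0 ≤ m) : ¬ IsSquare n := by
  rintro ⟨r, hr⟩
  have h3 : n = |r| ^ 2 := by rw [sq_abs, hr, pow_two]
  have h4 : m < |r| := by
    by_contra h
    push Not at h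
    nlinarith [abs_nonneg r]
  have h5 : |r| < m + 1 := by
    by_contra h
    push Not at h
    nlinarith [abs_nonneg r]
  omega

lemma exn_sq (k : Fin 3) : ¬ IsSquare (exn k) := by
  fin_cases k
  · exact nsq (n := 13) (m := 3) (by norm_num) (by norm_num) (by norm_num)
  · exact nsq (n := 17) (m := 4) (by norm_num) (by norm_num) (by norm_num)
  · exact nsq (n := 221) (m := 14) (by norm_num) (by norm_num) (by norm_num)

lemma ex_irr (k : Fin 3) : Irreducible ((ex k).map (Int.castRingHom ℚ)) := by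
  apply irreducible_of_degree_le_three_of_not_isRoot
  · rw [ex_natDegree']
    simp
  · intro x hx
    rw [IsRoot.def, ex_map] at hx
    simp only [eval_sub, eval_pow, eval_X, eval_C] at hx
    apply exn_sq k
    rw [← Rat.isSquare_intCast_iff]
    exact ⟨x - exa k, by linear_combination -hx⟩

lemma ex_monic (k : Fin 3) : ((ex k).map (Int.castRingHom ℚ)).Monic := by
  rw [Monic, leadingCoeff, ex_natDegree', coeff_map, (ex_coeff k).2.2]
  simp

lemma ex_ass (k l : Fin 3) (h : k ≠ l) :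
    ¬ Associated ((ex k).map (Int.castRingHom ℚ)) ((ex l).map (Int.castRingHom ℚ)) := by
  intro h1
  have h2 := eq_of_monic_of_associated (ex_monic k) (ex_monic l) h1
  have h3 : ((ex k).map (Int.castRingHom ℚ)).coeff 1 = ((ex l).map (Int.castRingHom ℚ)).coeff 1 := by
    rw [h2]
  rw [coeff_map, coeff_map, (ex_coeff k).2.1, (ex_coeff l).2.1] at h3
  have h4 : exa k = exa l := by
    have h5 : (-2 * exa k : ℤ) = -2 * exa l := by
      have := h3
      simp only [eq_intCast, Int.cast_inj] at this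
      exact this
    omega
  revert h h4
  clear h1 h2 h3
  revert k l
  decide

lemma hom_ex {R : Type*} [CommRing R] (k : Fin 3) (x w : R) :
    hom (ex k) x w = (x - exa k * w) ^ 2 - exn k * w ^ 2 := by
  unfold hom
  rw [ex_natDegree, sum_range_succ, sum_range_succ, sum_range_one, (ex_coeff k).1,
    (ex_coeff k).2.1, (ex_coeff k).2.2]
  push_cast
  ring

lemma padic_sq {p : ℕ} [hp : Fact p.Prime] (hp2 : p ≠ 2) {n : ℤ} (hn : ¬ (p : ℤ) ∣ n)
    (h : IsSquare (n : ZMod p)) : ∃ z : ℤ_[p], z ^ 2 = n := by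
  obtain ⟨a, ha⟩ := h
  obtain ⟨s, hs⟩ := ZMod.intCast_surjective a
  have h1 : (p : ℤ) ∣ s ^ 2 - n := by
    rw [← ZMod.intCast_zmod_eq_zero_iff_dvd]
    push_cast
    rw [ha, hs]
    ring
  have h2 : ¬ (p : ℤ) ∣ 2 * s := by
    intro h2
    have hpi : Prime (p : ℤ) := Nat.prime_iff_prime_int.1 hp.out
    rcases hpi.dvd_or_dvd h2 with h3 | h3
    · have h5 : p ∣ 2 := by exact_mod_cast h3
      exact hp2 ((Nat.prime_dvd_prime_iff_eq hp.out Nat.prime_two).1 h5)
    · apply hn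
      have := dvd_sub ((dvd_pow h3 two_ne_zero : (p : ℤ) ∣ s ^ 2)) h1
      simpa using this
  have e1 : ∀ w : ℤ_[p], (aeval w) (X ^ 2 - C (n : ℤ_[p]) : ℤ_[p][X]) = w ^ 2 - n := by
    intro w; simp
  have e2 : ∀ w : ℤ_[p], (aeval w) (derivative (X ^ 2 - C (n : ℤ_[p]) : ℤ_[p][X])) = 2 * w := by
    intro w; simp; norm_num
  obtain ⟨z, hz, -⟩ := hensels_lemma (p := p) (R := ℤ_[p]) (F := X ^ 2 - C (n : ℤ_[p]))
    (a := (s : ℤ_[p])) (by
      rw [e1, e2]
      have h3 : ‖((s ^ 2 - n : ℤ) : ℤ_[p])‖ < 1 := by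
        rw [PadicInt.norm_intCast_lt_one_iff]
        exact h1
      have h4 : ‖((2 * s : ℤ) : ℤ_[p])‖ = 1 := by
        have h5 : ¬ ‖((2 * s : ℤ) : ℤ_[p])‖ < 1 := by
          rw [PadicInt.norm_intCast_lt_one_iff]
          exact h2
        exact le_antisymm (PadicInt.norm_le_one _) (not_lt.1 h5)
      push_cast at h3 h4
      rw [h4]
      simpa using h3)
  rw [e1] at hz
  exact ⟨z, sub_eq_zero.1 hz⟩

lemma padic_sq2 : ∃ z : ℤ_[2], z ^ 2 = 17 := by
  have e1 : ∀ w : ℤ_[2], (aeval w) (X ^ 2 - C (17 : ℤ_[2]) : ℤ_[2][X]) = w ^ 2 - 17 := by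
    intro w; simp
  have e2 : ∀ w : ℤ_[2], (aeval w) (derivative (X ^ 2 - C (17 : ℤ_[2]) : ℤ_[2][X])) = 2 * w := by
    intro w; simp; norm_num
  obtain ⟨z, hz, -⟩ := hensels_lemma (p := 2) (R := ℤ_[2]) (F := X ^ 2 - C (17 : ℤ_[2]))
    (a := 1) (by
      rw [e1, e2]
      have h3 : ((1 : ℤ_[2]) ^ 2 - 17) = - (2 : ℤ_[2]) ^ 4 := by norm_num
      have h4 : ‖(2 : ℤ_[2])‖ = 2⁻¹ := by
        have := PadicInt.norm_p (p := 2)
        exact_mod_cast this
      rw [h3, norm_neg, mul_one, norm_pow, h4]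
      norm_num)
  rw [e1] at hz
  exact ⟨z, sub_eq_zero.1 hz⟩

lemma sq13 : ((17 : ℤ) : ZMod 13) = 2 * 2 := by decide

lemma sq17 : ((13 : ℤ) : ZMod 17) = 8 * 8 := by decide

/-- one of `13`, `17`, `221` is a square in `ℚ_p` -/
lemma padic_ex (p : ℕ) [hp : Fact p.Prime] : ∃ k : Fin 3, ∃ z : ℤ_[p], z ^ 2 = exn k := by
  by_cases h2 : p = 2
  · subst h2
    obtain ⟨z, hz⟩ := padic_sq2
    exact ⟨1, z, by simp [exn, hz]⟩
  by_cases h13 : p = 13
  · subst h13
    obtain ⟨z, hz⟩ := padic_sq (p := 13) (n := 17) (by norm_num) (by norm_num)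
      ⟨(2 : ZMod 13), sq13⟩
    exact ⟨1, z, by simpa [exn] using hz⟩
  by_cases h17 : p = 17
  · subst h17
    obtain ⟨z, hz⟩ := padic_sq (p := 17) (n := 13) (by norm_num) (by norm_num)
      ⟨(8 : ZMod 17), sq17⟩
    exact ⟨0, z, by simpa [exn] using hz⟩
  have d13 : ¬ (p : ℤ) ∣ 13 := by
    intro h
    have h5 : p ∣ 13 := by exact_mod_cast h
    exact h13 ((Nat.prime_dvd_prime_iff_eq hp.out (by norm_num)).1 h5)
  have d17 : ¬ (p : ℤ) ∣ 17 := by
    intro h
    have h5 : p ∣ 17 := by exact_mod_cast h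
    exact h17 ((Nat.prime_dvd_prime_iff_eq hp.out (by norm_num)).1 h5)
  have d221 : ¬ (p : ℤ) ∣ 221 := by
    intro h
    have hpi : Prime (p : ℤ) := Nat.prime_iff_prime_int.1 hp.out
    have : (p : ℤ) ∣ 13 * 17 := by norm_num; exact h
    rcases hpi.dvd_or_dvd this with h | h
    · exact d13 h
    · exact d17 h
  by_cases s13 : IsSquare ((13 : ℤ) : ZMod p)
  · obtain ⟨z, hz⟩ := padic_sq h2 d13 s13
    exact ⟨0, z, by simpa [exn] using hz⟩
  by_cases s17 : IsSquare ((17 : ℤ) : ZMod p)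
  · obtain ⟨z, hz⟩ := padic_sq h2 d17 s17
    exact ⟨1, z, by simpa [exn] using hz⟩
  have s221 : IsSquare ((221 : ℤ) : ZMod p) := by
    have h3 : (221 : ℤ) = 13 * 17 := by norm_num
    have hF : ringChar (ZMod p) ≠ 2 := by
      rw [ZMod.ringChar_zmod_n]; exact h2
    have g1 := quadraticChar_neg_one_iff_not_isSquare.2 s13
    have g2 := quadraticChar_neg_one_iff_not_isSquare.2 s17
    have g3 : quadraticChar (ZMod p) ((221 : ℤ) : ZMod p) = 1 := by
      rw [h3, Int.cast_mul, map_mul, g1, g2]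
      norm_num
    by_contra hns
    rw [quadraticChar_neg_one_iff_not_isSquare.2 hns] at g3
    norm_num at g3
  obtain ⟨z, hz⟩ := padic_sq h2 d221 s221
  exact ⟨2, z, by simpa [exn] using hz⟩

/-- all twists of the curve `y² = (X² - 13) ((X - 1)² - 17) ((X - 2)² - 221)` have points
everywhere locally -/
lemma ex_loc (d : ℤ) : (∃ x w y : ℝ, (x ≠ 0 ∨ w ≠ 0) ∧ d * y ^ 2 = ∏ k, hom (ex k) x w) ∧
    ∀ (p : ℕ) [Fact p.Prime], ∃ x w y : ℚ_[p], (x ≠ 0 ∨ w ≠ 0) ∧
      d * y ^ 2 = ∏ k, hom (ex k) x w := by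
  constructor
  · refine ⟨Real.sqrt 13, 1, 0, Or.inr one_ne_zero, ?_⟩
    rw [prod_eq_zero (mem_univ (0 : Fin 3))]
    · simp
    · rw [hom_ex]
      simp [exa, exn]
  · intro p _
    obtain ⟨k, z, hz⟩ := padic_ex p
    refine ⟨exa k + (z : ℚ_[p]), 1, 0, Or.inr one_ne_zero, ?_⟩
    rw [prod_eq_zero (mem_univ k)]
    · simp
    · rw [hom_ex]
      have h9 := congrArg (fun w : ℤ_[p] => (w : ℚ_[p])) hz
      simp only [PadicInt.coe_pow, PadicInt.coe_intCast] at h9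
      linear_combination h9

end Pool.Agent.W262.TW
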